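import Pool.Agent.Y212.Fk.Luc

set_option autoImplicit false

open MvPolynomial Matrix

namespace Pool.Agent.Y212.Fk

variable (k : Type*) [Field k] (n m : ℕ)

/-- The coaction of left multiplication. -/
noncomputable def coact : MvPolynomial (Fin n × Fin m) k →ₐ[k]
    MvPolynomial (Fin n × Fin n) (MvPolynomial (Fin n × Fin m) k) :=
  aeval fun u => ∑ l, X (u.1, l) * C (X (l, u.2))

/-- The ideal of the `q`-Frobenius kernel. -/
noncomputable def frobI (q : ℕ) :
    Ideal (MvPolynomial (Fin n × Fin n) (MvPolynomial (Fin n × Fin m) k)) :=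
  Ideal.span (Set.range fun u => X u ^ q - if u.1 = u.2 then 1 else 0)

/-- The algebra of invariants. -/
noncomputable def Inv (q : ℕ) : Subalgebra k (MvPolynomial (Fin n × Fin m) k) where
  carrier := {f | coact k n m f - C f ∈ frobI k n m q}
  mul_mem' := by
    intro a b ha hb
    have h : coact k n m (a * b) - C (a * b) =
        coact k n m a * (coact k n m b - C b) + C b * (coact k n m a - C a) := by
      rw [map_mul, map_mul]; ring
    change coact k n m (a * b) - C (a * b) ∈ frobI k n m q
    rw [h]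
    exact Ideal.add_mem _ (Ideal.mul_mem_left _ _ hb) (Ideal.mul_mem_left _ _ ha)
  add_mem' := by
    intro a b ha hb
    have h : coact k n m (a + b) - C (a + b) =
        (coact k n m a - C a) + (coact k n m b - C b) := by
      rw [map_add, map_add]; ring
    change coact k n m (a + b) - C (a + b) ∈ frobI k n m q
    rw [h]
    exact Ideal.add_mem _ ha hb
  algebraMap_mem' := by
    intro a
    change coact k n m (algebraMap _ _ a) - C (algebraMap _ _ a) ∈ frobI k n m q
    rw [AlgHom.commutes]
    have h : (algebraMap k (MvPolynomial (Fin n × Fin n) (MvPolynomial (Fin n × Fin m) k))) a =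
      C (algebraMap k (MvPolynomial (Fin n × Fin m) k) a) := rfl
    rw [h, sub_self]
    exact Ideal.zero_mem _

variable {k n m}

lemma mem_Inv {q : ℕ} {f : MvPolynomial (Fin n × Fin m) k} :
    f ∈ Inv k n m q ↔ coact k n m f - C f ∈ frobI k n m q := Iff.rfl

/-- The generic `n × m`-matrix. -/
noncomputable def gen (k : Type*) [Field k] (n m : ℕ) :
    Matrix (Fin n) (Fin m) (MvPolynomial (Fin n × Fin m) k) := Matrix.of fun i j => X (i, j)

/-- The maximal minors. -/
noncomputable def minor (k : Type*) [Field k] {n m : ℕ} (e : Fin n → Fin m) :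
    MvPolynomial (Fin n × Fin m) k := ((gen k n m).submatrix id e).det

/-- The generic group element. -/
noncomputable def gg (k : Type*) [Field k] (n m : ℕ) :
    Matrix (Fin n) (Fin n) (MvPolynomial (Fin n × Fin n) (MvPolynomial (Fin n × Fin m) k)) :=
  Matrix.of fun i j => X (i, j)

lemma coact_minor (e : Fin n → Fin m) :
    coact k n m (minor k e) = (gg k n m).det * C (minor k e) := by
  rw [minor, AlgHom.map_det, RingHom.map_det, ← det_mul]
  congr 1
  ext1 i j
  simp [coact, gen, gg, Matrix.mul_apply]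

lemma det_sub_one_mem {S : Type*} [CommRing S] (I : Ideal S) (M : Matrix (Fin n) (Fin n) S)
    (h : ∀ i j, M i j - (1 : Matrix (Fin n) (Fin n) S) i j ∈ I) : M.det - 1 ∈ I := by
  rw [← Ideal.Quotient.eq, RingHom.map_det, map_one]
  have h1 : (Ideal.Quotient.mk I).mapMatrix M = 1 := by
    ext1 i j
    have h2 := Ideal.Quotient.eq.2 (h i j)
    rw [RingHom.mapMatrix_apply, Matrix.map_apply, h2, Matrix.one_apply, Matrix.one_apply]
    split_ifs <;> simp
  rw [h1, det_one]

section char

variable {p : ℕ} [hp : Fact p.Prime] [CharP k p] (r : ℕ)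

include hp

lemma det_gg_pow : (gg k n m).det ^ (p ^ r) - 1 ∈ frobI k n m (p ^ r) := by
  rw [← iterateFrobenius_def, RingHom.map_det]
  apply det_sub_one_mem
  intro i j
  rw [RingHom.mapMatrix_apply, Matrix.map_apply, iterateFrobenius_def, Matrix.one_apply]
  exact Ideal.subset_span ⟨(i, j), rfl⟩

lemma prod_minor_mem (t : Fin (p ^ r) → Fin n → Fin m) :
    ∏ a, minor k (t a) ∈ Inv k n m (p ^ r) := by
  rw [mem_Inv, map_prod, map_prod]
  have h : ∏ a, coact k n m (minor k (t a)) - ∏ a, C (minor k (t a)) =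
      (∏ a, C (minor k (t a))) * ((gg k n m).det ^ (p ^ r) - 1) := by
    rw [Finset.prod_congr rfl fun a _ => coact_minor (t a), Finset.prod_mul_distrib,
      Finset.prod_const, Finset.card_univ, Fintype.card_fin]
    ring
  rw [h]
  exact Ideal.mul_mem_left _ _ (det_gg_pow r)

lemma pow_mem (u : Fin n × Fin m) :
    (X u : MvPolynomial (Fin n × Fin m) k) ^ (p ^ r) ∈ Inv k n m (p ^ r) := by
  rw [mem_Inv, map_pow, map_pow]
  have h1 : coact k n m (X u) = ∑ l, X (u.1, l) * C (X (l, u.2)) := by
    simp [coact]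
  have h2 : (C (X u) : MvPolynomial (Fin n × Fin n) (MvPolynomial (Fin n × Fin m) k))
      ^ (p ^ r) = ∑ l, (if u.1 = l then 1 else 0) * C (X (l, u.2)) ^ (p ^ r) := by
    simp
  rw [h1, sum_pow_char_pow, h2, ← Finset.sum_sub_distrib]
  refine Ideal.sum_mem _ fun l _ => ?_
  rw [mul_pow, ← sub_mul]
  exact Ideal.mul_mem_right _ _ (Ideal.subset_span ⟨(u.1, l), rfl⟩)

end char

end Pool.Agent.Y212.Fk
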