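import Pool.Agent.Y212.Fk.Bas

set_option autoImplicit false

open MvPolynomial Matrix Cardinal

universe u

namespace Pool.Agent.Y212.Fk

variable {k : Type u} [Field k] {n m : ℕ}

/-- The function field. -/
abbrev FF (k : Type u) [Field k] (n m : ℕ) := FractionRing (MvPolynomial (Fin n × Fin m) k)

/-- The generic matrix over the function field. -/
noncomputable def XK (k : Type u) [Field k] (n m : ℕ) : Matrix (Fin n) (Fin m) (FF k n m) :=
  (gen k n m).map (algebraMap _ _)

lemma XK_apply (i : Fin n) (j : Fin m) : XK k n m i j =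
    algebraMap (MvPolynomial (Fin n × Fin m) k) (FF k n m) (X (i, j)) := rfl

lemma det_XK (e : Fin n → Fin m) :
    ((XK k n m).submatrix id e).det = algebraMap _ (FF k n m) (minor k e) := by
  rw [minor, RingHom.map_det]
  rfl

/-- The reduced matrix. -/
noncomputable def WW (k : Type u) [Field k] {n m : ℕ} (e : Fin n → Fin m) :
    Matrix (Fin n) (Fin m) (FF k n m) :=
  ((XK k n m).submatrix id e)⁻¹ * XK k n m

section fix

variable (e : Fin n → Fin m) (he : minor k e ≠ 0)

include he

lemma det_ne : algebraMap _ (FF k n m) (minor k e) ≠ 0 := by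
  rw [Ne, FaithfulSMul.algebraMap_eq_zero_iff]
  exact he

lemma isUnit_det : IsUnit ((XK k n m).submatrix id e).det := by
  rw [det_XK]
  exact IsUnit.mk0 _ (det_ne e he)

lemma e_inj : Function.Injective e := by
  intro a b hab
  by_contra hne
  apply he
  rw [minor]
  apply Matrix.det_zero_of_column_eq hne
  intro i
  simp [hab]

lemma WW_range (i l : Fin n) : WW k e i (e l) = if i = l then 1 else 0 := by
  have h : (WW k e).submatrix id e = 1 := by
    have h1 : (WW k e).submatrix id e =
        ((XK k n m).submatrix id e)⁻¹ * (XK k n m).submatrix id e := by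
      ext1 a b
      simp [WW, Matrix.mul_apply]
    rw [h1, Matrix.nonsing_inv_mul _ (isUnit_det e he)]
  have h2 := congrFun (congrFun h i) l
  rw [Matrix.one_apply] at h2
  exact h2

lemma mul_WW : (XK k n m).submatrix id e * WW k e = XK k n m := by
  rw [WW, ← Matrix.mul_assoc, Matrix.mul_nonsing_inv _ (isUnit_det e he), Matrix.one_mul]

lemma mul_WW_apply (i : Fin n) (j : Fin m) :
    ∑ l, XK k n m i (e l) * WW k e l j = XK k n m i j := by
  have h := congrFun (congrFun (mul_WW e he) i) j
  rwa [Matrix.mul_apply] at h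

lemma WW_eq_div (i : Fin n) (j : Fin m) :
    WW k e i j = algebraMap _ (FF k n m) (minor k (Function.update e i j)) /
      algebraMap _ (FF k n m) (minor k e) := by
  rw [eq_div_iff (det_ne e he), ← det_XK, ← det_XK]
  have h1 : WW k e i j =
      (((XK k n m).submatrix id e)⁻¹ *ᵥ (fun a => XK k n m a j)) i := by
    rw [WW, Matrix.mul_apply]
    rfl
  have h2 : ((XK k n m).submatrix id (Function.update e i j)) =
      ((XK k n m).submatrix id e).updateCol i (fun a => XK k n m a j) := by
    ext1 a b
    by_cases hb : b = i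
    · subst hb
      simp
    · simp [Matrix.updateCol_ne hb, Function.update_of_ne hb]
  rw [h1, h2, ← Matrix.cramer_apply, Matrix.inv_def, Matrix.smul_mulVec,
    ← Matrix.cramer_eq_adjugate_mulVec, Pi.smul_apply, smul_eq_mul]
  have h3 := Ring.inverse_mul_cancel _ (isUnit_det e he)
  calc _ = (Ring.inverse ((XK k n m).submatrix id e).det * ((XK k n m).submatrix id e).det) *
        ((XK k n m).submatrix id e).cramer (fun a => XK k n m a j) i := by ring
    _ = _ := by rw [h3, one_mul]

/-- The coordinates `X i (e l)`, `W i j`. -/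
noncomputable def ww (k : Type u) [Field k] {n m : ℕ} (e : Fin n → Fin m) (v : Fin n × Fin m) :
    FF k n m := open Classical in
  if v.2 ∈ Set.range e then XK k n m v.1 v.2 else WW k e v.1 v.2

lemma WW_mem_adjoin (c : Fin n × Fin m → FF k n m)
    (hc : ∀ v : Fin n × Fin m, v.2 ∉ Set.range e → c v = WW k e v.1 v.2) (i : Fin n) (j : Fin m) :
    WW k e i j ∈ Algebra.adjoin k (Set.range c) := by
  by_cases hj : j ∈ Set.range e
  · obtain ⟨l, rfl⟩ := hj
    rw [WW_range e he]
    split_ifs
    · exact Subalgebra.one_mem _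
    · exact Subalgebra.zero_mem _
  · rw [← hc (i, j) hj]
    exact Algebra.subset_adjoin ⟨_, rfl⟩

lemma algebraMap_mem_adjoin_ww (f : MvPolynomial (Fin n × Fin m) k) :
    algebraMap _ (FF k n m) f ∈ Algebra.adjoin k (Set.range (ww k e)) := by
  have hW := WW_mem_adjoin e he (ww k e) (fun v hv => if_neg hv)
  have hX : ∀ i l, XK k n m i (e l) ∈ Algebra.adjoin k (Set.range (ww k e)) := by
    intro i l
    have h : ww k e (i, e l) = XK k n m i (e l) := if_pos ⟨l, rfl⟩
    rw [← h]
    exact Algebra.subset_adjoin ⟨_, rfl⟩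
  induction f using MvPolynomial.induction_on with
  | C a =>
    have h : algebraMap (MvPolynomial (Fin n × Fin m) k) (FF k n m) (C a) =
        algebraMap k (FF k n m) a :=
      (IsScalarTower.algebraMap_apply k (MvPolynomial (Fin n × Fin m) k) (FF k n m) a).symm
    rw [h]
    exact Subalgebra.algebraMap_mem _ _
  | add f g hf hg =>
    rw [map_add]
    exact Subalgebra.add_mem _ hf hg
  | mul_X f v hf =>
    rw [map_mul]
    refine Subalgebra.mul_mem _ hf ?_
    have h := mul_WW_apply e he v.1 v.2
    rw [XK_apply] at h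
    rw [← h]
    exact Subalgebra.sum_mem _ fun l _ => Subalgebra.mul_mem _ (hX _ _) (hW _ _)

lemma isAlgebraic_adjoin :
    Algebra.IsAlgebraic (Algebra.adjoin k (Set.range (ww k e))) (FF k n m) := by
  refine ⟨fun x => ?_⟩
  obtain ⟨a, b, hb, rfl⟩ := IsFractionRing.div_surjective
    (A := MvPolynomial (Fin n × Fin m) k) x
  have ha : IsAlgebraic (Algebra.adjoin k (Set.range (ww k e)))
      (algebraMap (MvPolynomial (Fin n × Fin m) k) (FF k n m) a) :=
    isAlgebraic_algebraMap (A := FF k n m)
      (⟨_, algebraMap_mem_adjoin_ww e he a⟩ : Algebra.adjoin k (Set.range (ww k e)))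
  have hb : IsAlgebraic (Algebra.adjoin k (Set.range (ww k e)))
      (algebraMap (MvPolynomial (Fin n × Fin m) k) (FF k n m) b) :=
    isAlgebraic_algebraMap (A := FF k n m)
      (⟨_, algebraMap_mem_adjoin_ww e he b⟩ : Algebra.adjoin k (Set.range (ww k e)))
  rw [div_eq_mul_inv]
  exact ha.mul hb.inv

lemma algebraicIndependent_ww : AlgebraicIndependent k (ww k e) := by
  have h1 := isAlgebraic_adjoin e he
  have h0 : Algebra.IsAlgebraic (MvPolynomial (Fin n × Fin m) k) (FF k n m) :=
    IsLocalization.isAlgebraic _ (nonZeroDivisors (MvPolynomial (Fin n × Fin m) k))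
  have h2 : IsTranscendenceBasis k
      (fun v : Fin n × Fin m => algebraMap (MvPolynomial (Fin n × Fin m) k) (FF k n m) (X v)) :=
    (IsTranscendenceBasis.mvPolynomial (Fin n × Fin m) k).algebraMap_comp (A := FF k n m)
  have h3 := h2.lift_cardinalMk_eq_trdeg
  exact (Algebra.IsAlgebraic.isTranscendenceBasis_of_lift_le_trdeg_of_finite k (ww k e)
    h3.le).1

end fix

end Pool.Agent.Y212.Fk
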