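import Pool.Agent.Y212.Fk.Cht

set_option autoImplicit false

open MvPolynomial Matrix Cardinal

universe u

namespace Pool.Agent.Y212.Fk

variable {k : Type u} [Field k] {n m : ℕ}

/-- The point with the coordinates `ww`. -/
noncomputable def psi (k : Type u) [Field k] {n m : ℕ} (e : Fin n → Fin m) :
    MvPolynomial (Fin n × Fin m) k →ₐ[k] FF k n m := aeval (ww k e)

/-- The polynomial map `(A, Z) ↦ (A, A Z)`. -/
noncomputable def theta (k : Type u) [Field k] {n m : ℕ} (e : Fin n → Fin m) :
    MvPolynomial (Fin n × Fin m) k →ₐ[k] MvPolynomial (Fin n × Fin m) k :=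
  aeval fun v => open Classical in
    if v.2 ∈ Set.range e then X v else ∑ l, X (v.1, e l) * X (l, v.2)

section fix

variable (e : Fin n → Fin m) (he : minor k e ≠ 0)

lemma psi_X (v : Fin n × Fin m) : psi k e (X v) = ww k e v := by simp [psi]

lemma ww_range (v : Fin n × Fin m) (hv : v.2 ∈ Set.range e) :
    ww k e v = XK k n m v.1 v.2 := if_pos hv

lemma ww_not (v : Fin n × Fin m) (hv : v.2 ∉ Set.range e) :
    ww k e v = WW k e v.1 v.2 := if_neg hv

include he

lemma psi_inj : Function.Injective (psi k e) := algebraicIndependent_ww e he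

lemma psi_theta (f : MvPolynomial (Fin n × Fin m) k) :
    psi k e (theta k e f) = algebraMap _ (FF k n m) f := by
  have h : (psi k e).comp (theta k e) =
      (IsScalarTower.toAlgHom k (MvPolynomial (Fin n × Fin m) k) (FF k n m)) := by
    apply MvPolynomial.algHom_ext
    intro v
    rw [AlgHom.comp_apply, theta, aeval_X]
    by_cases hv : v.2 ∈ Set.range e
    · rw [if_pos hv, psi_X, ww_range e v hv]
      rfl
    · rw [if_neg hv, map_sum]
      have h1 : ∀ l, psi k e (X (v.1, e l) * X (l, v.2)) =
          XK k n m v.1 (e l) * WW k e l v.2 := by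
        intro l
        rw [map_mul, psi_X, psi_X, ww_range e _ ⟨l, rfl⟩, ww_not e (l, v.2) hv]
      rw [Finset.sum_congr rfl fun l _ => h1 l, mul_WW_apply e he]
      rfl
  exact DFunLike.congr_fun h f

end fix

/-- The one parameter family of points of the Frobenius kernel. -/
noncomputable def ev (k : Type u) [Field k] {n m : ℕ} (e : Fin n → Fin m) (i0 l0 : Fin n) :
    MvPolynomial (Fin n × Fin n) (MvPolynomial (Fin n × Fin m) k) →+*
      Polynomial (FF k n m) :=
  eval₂Hom ((Polynomial.C).comp (algebraMap _ (FF k n m))) fun u =>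
    Polynomial.C (if u.1 = u.2 then 1 else 0) + Polynomial.X *
      Polynomial.C (if u.1 = i0 then ((XK k n m).submatrix id e)⁻¹ l0 u.2 else 0)

/-- The point with the coordinates `ww + T` at `v` and `ww` elsewhere. -/
noncomputable def chi (k : Type u) [Field k] {n m : ℕ} (e : Fin n → Fin m)
    (v : Fin n × Fin m) :
    MvPolynomial (Fin n × Fin m) k →ₐ[k] Polynomial (FF k n m) :=
  aeval fun u => Polynomial.C (ww k e u) + if u = v then Polynomial.X else 0

lemma chi_eq (e : Fin n → Fin m) (v : Fin n × Fin m) (f : MvPolynomial (Fin n × Fin m) k) :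
    chi k e v f = Polynomial.mapAlgHom (psi k e) (shift v f) := by
  have h : chi k e v = (Polynomial.mapAlgHom (psi k e)).comp (shift v) := by
    apply MvPolynomial.algHom_ext
    intro u
    rw [AlgHom.comp_apply, chi, aeval_X, shift, aeval_X, map_add]
    congr 1
    · simp [psi_X]
    · split_ifs <;> simp
  rw [h]
  rfl

section fix2

variable (e : Fin n → Fin m) (he : minor k e ≠ 0) (i0 l0 : Fin n)

include he

lemma ev_coact (f : MvPolynomial (Fin n × Fin m) k) :
    ev k e i0 l0 (coact k n m f) = chi k e (i0, e l0) (theta k e f) := by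
  have hinj := e_inj e he
  have h : (ev k e i0 l0).comp (coact k n m).toRingHom =
      ((chi k e (i0, e l0)).comp (theta k e)).toRingHom := by
    apply MvPolynomial.ringHom_ext
    · intro a
      have h1 : coact k n m (C a) = C (C a) := by
        have := (coact k n m).commutes a
        exact this
      have h2 : theta k e (C a) = C a := (theta k e).commutes a
      change ev k e i0 l0 (coact k n m (C a)) = chi k e (i0, e l0) (theta k e (C a))
      rw [h1, h2]
      have h3 : chi k e (i0, e l0) (C a) = algebraMap k _ a := (chi k e (i0, e l0)).commutes a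
      rw [h3]
      simp only [ev, coe_eval₂Hom, eval₂_C, RingHom.comp_apply]
      rfl
    · intro v
      change ev k e i0 l0 (coact k n m (X v)) = chi k e (i0, e l0) (theta k e (X v))
      have h1 : coact k n m (X v) = ∑ l, X (v.1, l) * C (X (l, v.2)) := by simp [coact]
      have h2 : ∀ l, ev k e i0 l0 (X (v.1, l) * C (X (l, v.2))) =
          Polynomial.C ((if v.1 = l then 1 else 0) * XK k n m l v.2) + Polynomial.X *
      Polynomial.C ((if v.1 = i0 then ((XK k n m).submatrix id e)⁻¹ l0 l else 0) *
        XK k n m l v.2) := by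
        intro l
        rw [ev, map_mul]
        simp only [coe_eval₂Hom, eval₂_C, eval₂_X, RingHom.comp_apply, ← XK_apply]
        simp only [map_mul]
        ring
      have h3 : ev k e i0 l0 (coact k n m (X v)) = Polynomial.C (XK k n m v.1 v.2) +
          Polynomial.X * Polynomial.C (if v.1 = i0 then WW k e l0 v.2 else 0) := by
        rw [h1, map_sum, Finset.sum_congr rfl fun l _ => h2 l, Finset.sum_add_distrib,
          ← map_sum, ← Finset.mul_sum, ← map_sum]
        congr 1
        · congr 1
          simp
        · congr 2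
          split_ifs with hv
          · rw [WW, Matrix.mul_apply]
          · simp
      rw [h3]
      by_cases hv : v.2 ∈ Set.range e
      · have h4 : theta k e (X v) = X v := by
          rw [theta, aeval_X, if_pos hv]
        rw [h4, chi, aeval_X, ww_range e v hv]
        congr 1
        obtain ⟨l, hl⟩ := hv
        rw [← hl, WW_range e he]
        by_cases hv1 : v = (i0, e l0)
        · have h5 : v.1 = i0 := by rw [hv1]
          have h6 : l0 = l := by
            apply hinj
            rw [hl, hv1]
          rw [if_pos h5, if_pos h6, if_pos hv1]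
          simp
        · rw [if_neg hv1]
          by_cases h5 : v.1 = i0
          · have h6 : l0 ≠ l := by
              rintro rfl
              exact hv1 (Prod.ext h5 hl.symm)
            rw [if_pos h5, if_neg h6]
            simp
          · rw [if_neg h5]
            simp
      · have h4 : theta k e (X v) = ∑ l, X (v.1, e l) * X (l, v.2) := by
          rw [theta, aeval_X, if_neg hv]
        have h5 : ∀ l, chi k e (i0, e l0) (X (v.1, e l) * X (l, v.2)) =
            Polynomial.C (XK k n m v.1 (e l) * WW k e l v.2) +
            (if (v.1, e l) = (i0, e l0) then Polynomial.X else 0) *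
              Polynomial.C (WW k e l v.2) := by
          intro l
          have h6 : ((l, v.2) : Fin n × Fin m) ≠ (i0, e l0) := by
            intro h
            apply hv
            exact ⟨l0, (congrArg Prod.snd h).symm⟩
          rw [map_mul, chi, aeval_X, aeval_X, if_neg h6, ww_range e (v.1, e l) ⟨l, rfl⟩,
            ww_not e (l, v.2) hv, add_zero, add_mul, map_mul]
        rw [h4, map_sum, Finset.sum_congr rfl fun l _ => h5 l, Finset.sum_add_distrib,
          ← map_sum, mul_WW_apply e he]
        congr 1
        by_cases hv1 : v.1 = i0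
        · rw [if_pos hv1, Finset.sum_eq_single l0]
          · rw [hv1, if_pos rfl]
          · intro l _ hl
            have h7 : (v.1, e l) ≠ (i0, e l0) := by
              intro h
              exact hl (hinj (congrArg Prod.snd h))
            rw [if_neg h7, zero_mul]
          · intro h
            exact absurd (Finset.mem_univ _) h
        · rw [if_neg hv1, map_zero, mul_zero]
          symm
          apply Finset.sum_eq_zero
          intro l _
          have h7 : (v.1, e l) ≠ (i0, e l0) := by
            intro h
            exact hv1 (congrArg Prod.fst h)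
          rw [if_neg h7, zero_mul]
  exact DFunLike.congr_fun h f

lemma ev_C (f : MvPolynomial (Fin n × Fin m) k) :
    ev k e i0 l0 (C f) = Polynomial.C (psi k e (theta k e f)) := by
  rw [psi_theta e he]
  simp [ev]

end fix2

section char

variable {p : ℕ} [hp : Fact p.Prime] [CharP k p] (r : ℕ)

include hp

lemma dvd_ev (e : Fin n → Fin m) (i0 l0 : Fin n)
    {f : MvPolynomial (Fin n × Fin n) (MvPolynomial (Fin n × Fin m) k)}
    (hf : f ∈ frobI k n m (p ^ r)) : Polynomial.X ^ (p ^ r) ∣ ev k e i0 l0 f := by
  have hle : frobI k n m (p ^ r) ≤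
      Ideal.comap (ev k e i0 l0) (Ideal.span {Polynomial.X ^ (p ^ r)}) := by
    rw [frobI, Ideal.span_le]
    rintro _ ⟨u, rfl⟩
    change ev k e i0 l0 _ ∈ Ideal.span {Polynomial.X ^ (p ^ r)}
    rw [Ideal.mem_span_singleton]
    have hch : CharP (FF k n m) p := charP_of_injective_algebraMap (R := k)
      (FaithfulSMul.algebraMap_injective k (FF k n m)) p
    have h1 : ev k e i0 l0 (X u) = Polynomial.C (if u.1 = u.2 then 1 else 0) + Polynomial.X *
      Polynomial.C (if u.1 = i0 then ((XK k n m).submatrix id e)⁻¹ l0 u.2 else 0) := by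
      simp [ev]
    have h2 : ev k e i0 l0 (if u.1 = u.2 then 1 else 0) =
        Polynomial.C (if u.1 = u.2 then 1 else 0) := by
      split_ifs <;> simp
    rw [map_sub, map_pow, h1, h2, add_pow_char_pow, ← map_pow]
    have h3 : (if u.1 = u.2 then (1 : FF k n m) else 0) ^ (p ^ r) =
        if u.1 = u.2 then 1 else 0 := by
      have : p ^ r ≠ 0 := (pow_pos hp.out.pos r).ne'
      split_ifs
      · simp
      · exact zero_pow this
    rw [h3, add_sub_cancel_left, mul_pow]
    exact Dvd.intro _ rfl
  have h := hle hf
  rw [Ideal.mem_comap, Ideal.mem_span_singleton] at h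
  exact h

lemma coeff_shift_theta (e : Fin n → Fin m) (he : minor k e ≠ 0) (i0 l0 : Fin n)
    {f : MvPolynomial (Fin n × Fin m) k} (hf : f ∈ Inv k n m (p ^ r)) (s : ℕ) (hs0 : 0 < s)
    (hs : s < p ^ r) : (shift (i0, e l0) (theta k e f)).coeff s = 0 := by
  apply psi_inj e he
  rw [map_zero]
  have h1 := dvd_ev r e i0 l0 (mem_Inv.1 hf)
  rw [map_sub, ev_coact e he, ev_C e he, chi_eq] at h1
  have h2 := (Polynomial.X_pow_dvd_iff.1 h1) s hs
  rw [Polynomial.coeff_sub, Polynomial.coeff_C_of_ne_zero hs0.ne', sub_zero] at h2
  rw [← h2]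
  simp

lemma algebraMap_mem (e : Fin n → Fin m) (he : minor k e ≠ 0) (c : Fin n × Fin m → FF k n m)
    (hc1 : ∀ v : Fin n × Fin m, v.2 ∈ Set.range e → c v = XK k n m v.1 v.2 ^ (p ^ r))
    (hc2 : ∀ v : Fin n × Fin m, v.2 ∉ Set.range e → c v = WW k e v.1 v.2)
    {f : MvPolynomial (Fin n × Fin m) k} (hf : f ∈ Inv k n m (p ^ r)) :
    algebraMap _ (FF k n m) f ∈ Algebra.adjoin k (Set.range c) := by
  classical
  rw [← psi_theta e he]
  have h1 : theta k e f ∈ Algebra.adjoin k (Set.range fun v : Fin n × Fin m =>
      (if v.2 ∈ Set.range e then X v ^ (p ^ r) else X v : MvPolynomial (Fin n × Fin m) k)) := by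
    apply mem_adjoin_of_dvd (fun v : Fin n × Fin m => v.2 ∈ Set.range e)
    intro d hd v hv
    obtain ⟨l, hl⟩ := hv
    have h2 : v = (v.1, e l) := Prod.ext rfl hl.symm
    rw [h2]
    exact dvd_of_shift hp.out _ _ (fun s hs0 hs => coeff_shift_theta r e he _ _ hf s hs0 hs) d hd
  have h3 : psi k e (theta k e f) ∈ (Algebra.adjoin k (Set.range fun v : Fin n × Fin m =>
      (if v.2 ∈ Set.range e then X v ^ (p ^ r) else X v :
        MvPolynomial (Fin n × Fin m) k))).map (psi k e) := ⟨_, h1, rfl⟩
  rw [AlgHom.map_adjoin] at h3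
  refine Algebra.adjoin_mono ?_ h3
  rintro _ ⟨_, ⟨v, rfl⟩, rfl⟩
  refine ⟨v, ?_⟩
  by_cases hv : v.2 ∈ Set.range e
  · simp only [if_pos hv]
    rw [map_pow, psi_X, ww_range e v hv, hc1 v hv]
  · simp only [if_neg hv]
    rw [psi_X, ww_not e v hv, hc2 v hv]

end char

end Pool.Agent.Y212.Fk
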