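import Mathlib

set_option autoImplicit false

open MvPolynomial

namespace Pool.Agent.Y212.Fk

/-- If `q = p ^ r` then the binomial coefficient `(d choose (d mod q))` is prime to `p`. -/
lemma not_dvd_choose {p : ℕ} (hp : p.Prime) (r d : ℕ) : ¬ p ∣ Nat.choose d (d % p ^ r) := by
  have : Fact p.Prime := ⟨hp⟩
  induction r generalizing d with
  | zero => simpa [Nat.mod_one] using hp.one_lt.ne'
  | succ r ih =>
    intro h
    have h1 := Choose.choose_modEq_choose_mod_mul_choose_div_nat (n := d) (k := d % p ^ (r + 1))
      (p := p)
    have h2 : d % p ^ (r + 1) % p = d % p := by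
      apply Nat.mod_mod_of_dvd
      exact dvd_pow_self p (Nat.succ_ne_zero r)
    have h3 : d % p ^ (r + 1) / p = d / p % p ^ r := by
      rw [pow_succ', Nat.mod_mul_right_div_self]
    rw [h2, h3, Nat.choose_self, one_mul] at h1
    exact ih (d / p) ((Nat.ModEq.dvd_iff h1 dvd_rfl).1 h)

variable {k : Type*} [Field k] {σ : Type*} [DecidableEq σ]

/-- The substitution `X v ↦ X v + T`. -/
noncomputable def shift (v : σ) : MvPolynomial σ k →ₐ[k] Polynomial (MvPolynomial σ k) :=
  aeval fun u => Polynomial.C (X u) + if u = v then Polynomial.X else 0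

lemma shift_monomial (v : σ) (d : σ →₀ ℕ) (a : k) :
    shift v (monomial d a) = Polynomial.C (monomial (d.erase v) a) *
      (Polynomial.X + Polynomial.C (X v)) ^ d v := by
  classical
  have h1 : (monomial d a : MvPolynomial σ k) = monomial (d.erase v) a * X v ^ d v := by
    rw [X_pow_eq_monomial, monomial_mul, mul_one, Finsupp.erase_add_single v d]
  rw [h1, map_mul, map_pow]
  congr 1
  · rw [shift, aeval_monomial]
    have h2 : (monomial (d.erase v) a : MvPolynomial σ k) =
        C a * (d.erase v).prod fun u e => X u ^ e := by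
      rw [monomial_eq]
    rw [h2, map_mul]
    congr 1
    rw [Finsupp.prod, Finsupp.prod, map_prod]
    apply Finset.prod_congr rfl
    intro u hu
    have huv : u ≠ v := by
      rintro rfl
      simp at hu
    rw [if_neg huv, add_zero, map_pow]
  · congr 1
    simp [shift, add_comm]

lemma coeff_shift_monomial (v : σ) (d : σ →₀ ℕ) (a : k) (s : ℕ) :
    (shift v (monomial d a)).coeff s =
      monomial (d.erase v + Finsupp.single v (d v - s)) (a * (d v).choose s) := by
  rw [shift_monomial, Polynomial.coeff_C_mul, Polynomial.coeff_X_add_C_pow, X_pow_eq_monomial]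
  rw [← map_natCast (C : k →+* MvPolynomial σ k), C_apply, monomial_mul, monomial_mul,
    add_zero, one_mul]

lemma coeff_coeff_shift (v : σ) (F : MvPolynomial σ k) (s : ℕ) (d : σ →₀ ℕ) (hs : s ≤ d v) :
    coeff (d.erase v + Finsupp.single v (d v - s)) ((shift v F).coeff s) =
      coeff d F * (d v).choose s := by
  classical
  have key : ∀ (e : σ →₀ ℕ) (a : k),
      coeff (d.erase v + Finsupp.single v (d v - s)) ((shift v (monomial e a)).coeff s) =
      coeff d (monomial e a) * (d v).choose s := by
    intro e a
    rw [coeff_shift_monomial, coeff_monomial, coeff_monomial]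
    by_cases hed : e = d
    · subst hed
      rw [if_pos rfl, if_pos rfl]
    · rw [if_neg hed, zero_mul]
      by_cases h : e.erase v + Finsupp.single v (e v - s) =
          d.erase v + Finsupp.single v (d v - s)
      · rw [if_pos h]
        have h1 : e v - s = d v - s := by
          have := DFunLike.congr_fun h v
          simpa using this
        have h2 : ∀ u, u ≠ v → e u = d u := by
          intro u hu
          have := DFunLike.congr_fun h u
          simpa [Finsupp.erase_ne hu, Finsupp.single_apply, Ne.symm hu] using this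
        have h3 : e v ≠ d v := by
          intro h3
          apply hed
          ext u
          by_cases hu : u = v
          · rw [hu, h3]
          · exact h2 u hu
        have h4 : e v < s := by omega
        rw [Nat.choose_eq_zero_of_lt h4, Nat.cast_zero, mul_zero]
      · rw [if_neg h]
  induction F using MvPolynomial.induction_on' with
  | monomial e a => exact key e a
  | add f g hf hg =>
    rw [map_add, Polynomial.coeff_add, coeff_add, coeff_add, hf, hg, add_mul]

/-- A polynomial which does not change modulo `T ^ q` under `X v ↦ X v + T` involves only powers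
of `X v` with exponents divisible by `q = p ^ r`. -/
lemma dvd_of_shift {p r : ℕ} (hp : p.Prime) [CharP k p] (v : σ) (F : MvPolynomial σ k)
    (h : ∀ s, 0 < s → s < p ^ r → (shift v F).coeff s = 0) (d : σ →₀ ℕ) (hd : coeff d F ≠ 0) :
    p ^ r ∣ d v := by
  by_contra hnd
  have hs0 : 0 < d v % p ^ r := Nat.pos_of_ne_zero fun h0 => hnd (Nat.dvd_of_mod_eq_zero h0)
  have hs1 : d v % p ^ r < p ^ r := Nat.mod_lt _ (pow_pos hp.pos r)
  have h1 := coeff_coeff_shift v F (d v % p ^ r) d (Nat.mod_le _ _)
  rw [h _ hs0 hs1, coeff_zero] at h1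
  have h2 : ((d v).choose (d v % p ^ r) : k) ≠ 0 := by
    rw [Ne, CharP.cast_eq_zero_iff k p]
    exact not_dvd_choose hp r (d v)
  exact mul_ne_zero hd h2 h1.symm

/-- Polynomials whose exponents at the variables satisfying `P` are divisible by `q`. -/
lemma mem_adjoin_of_dvd (P : σ → Prop) [DecidablePred P] (q : ℕ) (F : MvPolynomial σ k)
    (h : ∀ d, coeff d F ≠ 0 → ∀ v, P v → q ∣ d v) :
    F ∈ Algebra.adjoin k (Set.range fun v => (if P v then X v ^ q else X v :
      MvPolynomial σ k)) := by
  rw [← F.support_sum_monomial_coeff]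
  refine Subalgebra.sum_mem _ fun d hd => ?_
  rw [monomial_eq]
  refine Subalgebra.mul_mem _ (Subalgebra.algebraMap_mem _ _) ?_
  refine Subalgebra.prod_mem _ fun v _ => ?_
  by_cases hv : P v
  · obtain ⟨e, he⟩ := h d (mem_support_iff.1 hd) v hv
    rw [he]
    have h1 : (X v ^ q : MvPolynomial σ k) ∈ Algebra.adjoin k (Set.range fun v =>
        (if P v then X v ^ q else X v : MvPolynomial σ k)) := by
      apply Algebra.subset_adjoin
      exact ⟨v, if_pos hv⟩
    have h2 := Subalgebra.pow_mem _ h1 e
    rwa [← pow_mul] at h2
  · have h1 : (X v : MvPolynomial σ k) ∈ Algebra.adjoin k (Set.range fun v =>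
        (if P v then X v ^ q else X v : MvPolynomial σ k)) := by
      apply Algebra.subset_adjoin
      exact ⟨v, if_neg hv⟩
    exact Subalgebra.pow_mem _ h1 _

end Pool.Agent.Y212.Fk
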