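import Pool.Agent.Y212.Fk.Inv
import Pool.Agent.H920R2.Crit
import Pool.Agent.H920R2.Trans

set_option autoImplicit false

open MvPolynomial Matrix AlgebraicGeometry CategoryTheory Pool.Agent.H920R2

universe u

namespace Pool.Agent.Y212.Fk

variable {k : Type u} [Field k] {n m : ℕ}

/-- A subalgebra containing powers of the variables is of finite type. -/
lemma finiteType_of_pow {σ : Type} [Finite σ] (A : Subalgebra k (MvPolynomial σ k)) {q : ℕ}
    (hq : 0 < q) (h : ∀ i, (X i : MvPolynomial σ k) ^ q ∈ A) : Algebra.FiniteType k A := by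
  have hX : ∀ i, IsIntegral A (X i : MvPolynomial σ k) := by
    intro i
    refine ⟨Polynomial.X ^ q - Polynomial.C ⟨X i ^ q, h i⟩,
      Polynomial.monic_X_pow_sub_C _ hq.ne', ?_⟩
    rw [Polynomial.eval₂_sub, Polynomial.eval₂_pow, Polynomial.eval₂_X, Polynomial.eval₂_C]
    exact sub_self _
  have h1 : Algebra.IsIntegral A (MvPolynomial σ k) := by
    constructor
    intro b
    induction b using MvPolynomial.induction_on with
    | C a =>
      have h2 : (C a : MvPolynomial σ k) = algebraMap A _ (algebraMap k A a) := rfl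
      rw [h2]
      exact isIntegral_algebraMap
    | add p q hp hq => exact hp.add hq
    | mul_X p i hp => exact hp.mul (hX i)
  have h2 : Algebra.FiniteType A (MvPolynomial σ k) := by
    apply Algebra.FiniteType.of_restrictScalars_finiteType k
  have h3 : Module.Finite A (MvPolynomial σ k) := Algebra.IsIntegral.finite
  refine ⟨?_⟩
  refine fg_of_fg_of_fg k A (MvPolynomial σ k) ?_ h3.1 ?_
  · exact (inferInstance : Algebra.FiniteType k (MvPolynomial σ k)).1
  · exact Subtype.val_injective

lemma det_mem {K : Type*} [Field K] [Algebra k K] (S : Subalgebra k K)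
    (M : Matrix (Fin n) (Fin n) K) (h : ∀ i j, M i j ∈ S) : M.det ∈ S := by
  rw [Matrix.det_apply]
  refine Subalgebra.sum_mem _ fun σ _ => ?_
  rw [Units.smul_def]
  exact S.zsmul_mem (Subalgebra.prod_mem _ fun i _ => h _ _) _

/-- The quotient of two minors. -/
lemma minor_div_mem (e : Fin n → Fin m) (he : minor k e ≠ 0) (c : Fin n × Fin m → FF k n m)
    (hc2 : ∀ v : Fin n × Fin m, v.2 ∉ Set.range e → c v = WW k e v.1 v.2) (e' : Fin n → Fin m) :
    algebraMap _ (FF k n m) (minor k e') / algebraMap _ (FF k n m) (minor k e) ∈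
      Algebra.adjoin k (Set.range c) := by
  have h : algebraMap _ (FF k n m) (minor k e') / algebraMap _ (FF k n m) (minor k e) =
      ((WW k e).submatrix id e').det := by
    rw [div_eq_iff (det_ne e he), ← det_XK, ← det_XK]
    have h1 : (XK k n m).submatrix id e' =
        (XK k n m).submatrix id e * (WW k e).submatrix id e' := by
      have h2 := mul_WW e he
      ext1 i j
      have h3 := congrFun (congrFun h2 i) (e' j)
      rw [Matrix.mul_apply] at h3
      rw [Matrix.mul_apply]
      exact h3.symm
    rw [h1, Matrix.det_mul, mul_comm]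
  rw [h]
  exact det_mem _ _ fun i j => WW_mem_adjoin e he c hc2 _ _

lemma exists_minor_ne (hnm : n ≤ m) : ∃ e : Fin n → Fin m, minor k e ≠ 0 := by
  refine ⟨Fin.castLE hnm, fun h => ?_⟩
  let φ : MvPolynomial (Fin n × Fin m) k →+* k :=
    eval fun u => if (u.1 : ℕ) = (u.2 : ℕ) then 1 else 0
  have h1 : φ (minor k (Fin.castLE hnm)) = 1 := by
    rw [minor, RingHom.map_det]
    have h2 : φ.mapMatrix ((gen k n m).submatrix id (Fin.castLE hnm)) = 1 := by
      ext1 i j
      simp [φ, gen, Matrix.one_apply, Fin.ext_iff]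
    rw [h2, Matrix.det_one]
  rw [h, map_zero] at h1
  exact zero_ne_one h1

variable {p : ℕ} [hp : Fact p.Prime] [CharP k p] (r : ℕ)

include hp

/-- The generators of the ideal. -/
noncomputable def zz (k : Type u) [Field k] [CharP k p] (n m : ℕ)
    (t : Fin (p ^ r) → Fin n → Fin m) : Inv k n m (p ^ r) :=
  ⟨∏ a, minor k (t a), prod_minor_mem r t⟩

theorem hasResolution (hnm : n ≤ m) :
    HasResolution (X := Spec (CommRingCat.of (Inv k n m (p ^ r))))
      (Spec.map (CommRingCat.ofHom (algebraMap k (Inv k n m (p ^ r))))) := by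
  classical
  have hq : 0 < p ^ r := pow_pos hp.out.pos r
  let g : Inv k n m (p ^ r) →ₐ[k] FF k n m :=
    (IsScalarTower.toAlgHom k (MvPolynomial (Fin n × Fin m) k) (FF k n m)).comp
      (Inv k n m (p ^ r)).val
  have hg : Function.Injective g := by
    intro a b hab
    apply Subtype.ext
    exact IsFractionRing.injective (MvPolynomial (Fin n × Fin m) k) (FF k n m) hab
  have hgz : ∀ t, g (zz r k n m t) = ∏ a, algebraMap _ (FF k n m) (minor k (t a)) := by
    intro t
    change algebraMap _ (FF k n m) (∏ a, minor k (t a)) = _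
    rw [map_prod]
  have hz0 : ∀ e : Fin n → Fin m, zz r k n m (fun _ => e) ≠ 0 ↔ minor k e ≠ 0 := by
    intro e
    have h1 : ((zz r k n m (fun _ => e) : Inv k n m (p ^ r)) :
        MvPolynomial (Fin n × Fin m) k) = minor k e ^ (p ^ r) := by
      change ∏ _a : Fin (p ^ r), minor k e = _
      rw [Finset.prod_const, Finset.card_univ, Fintype.card_fin]
    rw [Ne, Ne, not_iff_not, ← ZeroMemClass.coe_eq_zero, h1, pow_eq_zero_iff hq.ne']
  have hdiv : ∀ (t : Fin (p ^ r) → Fin n → Fin m) (e : Fin n → Fin m),
      g (zz r k n m t) / g (zz r k n m fun _ => e) =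
        ∏ a, (algebraMap _ (FF k n m) (minor k (t a)) /
          algebraMap _ (FF k n m) (minor k e)) := by
    intro t e
    rw [hgz, hgz, Finset.prod_div_distrib]
  refine hasResolution_of_charts g hg (zz r k n m) (Set.range fun e _ => e) ?_ ?_
  · intro V hV
    obtain ⟨e0, he0⟩ := exists_minor_ne (k := k) hnm
    obtain ⟨e, -, he⟩ := Finset.exists_max_image (Finset.univ : Finset (Fin n → Fin m))
      (fun e => V.valuation (algebraMap _ (FF k n m) (minor k e))) ⟨e0, Finset.mem_univ _⟩
    have hne : minor k e ≠ 0 := by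
      intro h
      have h1 := he e0 (Finset.mem_univ _)
      rw [h, map_zero, map_zero, le_zero_iff, Valuation.zero_iff] at h1
      exact det_ne e0 he0 h1
    refine ⟨_, ⟨e, rfl⟩, (hz0 e).2 hne, fun t => ?_⟩
    rw [hdiv]
    refine prod_mem fun a _ => ?_
    rw [← ValuationSubring.valuation_le_one_iff, map_div₀]
    exact div_le_one_of_le₀ (he _ (Finset.mem_univ _)) zero_le
  · rintro _ ⟨e, rfl⟩ hs
    have he : minor k e ≠ 0 := (hz0 e).1 hs
    let c : Fin n × Fin m → FF k n m := fun v =>
      if v.2 ∈ Set.range e then XK k n m v.1 v.2 ^ (p ^ r) else WW k e v.1 v.2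
    have hc1 : ∀ v : Fin n × Fin m, v.2 ∈ Set.range e → c v = XK k n m v.1 v.2 ^ (p ^ r) :=
      fun v hv => if_pos hv
    have hc2 : ∀ v : Fin n × Fin m, v.2 ∉ Set.range e → c v = WW k e v.1 v.2 :=
      fun v hv => if_neg hv
    refine ⟨Fin n × Fin m, inferInstance, c, ?_, ?_, ?_, ?_⟩
    · have h1 := (algebraicIndependent_ww e he).polynomial_aeval_of_transcendental
        (f := fun v : Fin n × Fin m => if v.2 ∈ Set.range e then
          (Polynomial.X ^ (p ^ r) : Polynomial k) else Polynomial.X) ?_
      · have h2 : (fun v : Fin n × Fin m => Polynomial.aeval (ww k e v)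
            (if v.2 ∈ Set.range e then (Polynomial.X ^ (p ^ r) : Polynomial k)
              else Polynomial.X)) = c := by
          funext v
          by_cases hv : v.2 ∈ Set.range e
          · rw [if_pos hv, map_pow, Polynomial.aeval_X, hc1 v hv, ww_range e v hv]
          · rw [if_neg hv, Polynomial.aeval_X, hc2 v hv, ww_not e v hv]
        rw [h2] at h1
        exact h1
      · intro v
        by_cases hv : v.2 ∈ Set.range e
        · rw [if_pos hv]
          exact (Polynomial.transcendental_X k).pow hq
        · rw [if_neg hv]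
          exact Polynomial.transcendental_X k
    · intro a
      exact algebraMap_mem r e he c hc1 hc2 a.2
    · intro t
      rw [hdiv]
      exact Subalgebra.prod_mem _ fun a _ => minor_div_mem e he c hc2 _
    · intro v
      by_cases hv : v.2 ∈ Set.range e
      · rw [hc1 v hv]
        apply Algebra.subset_adjoin
        left
        refine ⟨⟨X v ^ (p ^ r), pow_mem r v⟩, ?_⟩
        change algebraMap (MvPolynomial (Fin n × Fin m) k) (FF k n m) (X v ^ (p ^ r)) = _
        rw [map_pow]
        rfl
      · rw [hc2 v hv, WW_eq_div e he]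
        apply Algebra.subset_adjoin
        right
        refine ⟨fun a => if a = ⟨0, hq⟩ then Function.update e v.1 v.2 else e, ?_⟩
        change g _ / g _ = _
        rw [hdiv, Finset.prod_eq_single (⟨0, hq⟩ : Fin (p ^ r))]
        · rw [if_pos rfl]
        · intro a _ ha
          rw [if_neg ha, div_self (det_ne e he)]
        · intro h
          exact absurd (Finset.mem_univ _) h

end Pool.Agent.Y212.Fk
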